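import Pool.Agent.helper22.FI3.SpecCQ

set_option autoImplicit false

namespace Pool.Agent.FI3

open Pool.Agent.helper58.DC Pool.Agent.DI Pool.Agent.GR Pool.Agent.OB Pool.Agent.DR Pool.Agent.FI

theorem JPR_three (p : ℕ) [Fact p.Prime] (G Gb : Type) [Group G] [Finite G] [Group Gb] [Finite Gb] (L Z : Subgroup G)
    (π : L →* Gb) (hQ : Qt p L Z π) (g : G) (hg : g ∈ L) (hr : PReg p g) (x : G)
    (z : G) (hz : z ∈ Z) (h : x * g * x⁻¹ = z * g) : z = 1 := by
  have hcomm : Commute z g := hQ.cen z hz g hg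
  have h1 : (x * g * x⁻¹) ^ orderOf g = 1 := by
    rw [conj_pow, pow_orderOf_eq_one]
    simp
  have h2 : z ^ orderOf g = 1 := by
    rw [h, hcomm.mul_pow, pow_orderOf_eq_one, mul_one] at h1
    exact h1
  obtain ⟨k, hk⟩ := hQ.pg ⟨z, hz⟩
  have h3 : z ^ p ^ k = 1 := by
    have := congrArg (Subtype.val) hk
    simpa using this
  have hcop : Nat.Coprime (p ^ k) (orderOf g) := by
    refine Nat.Coprime.pow_left k ?_
    exact (Nat.Prime.coprime_iff_not_dvd (Fact.out)).2 hr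
  have h4 : orderOf z ∣ 1 := by
    rw [← hcop]
    exact Nat.dvd_gcd (orderOf_dvd_of_pow_eq_one h3) (orderOf_dvd_of_pow_eq_one h2)
  exact orderOf_eq_one_iff.1 (Nat.dvd_one.1 h4)

theorem JPR : JPR_stmt := by
  intro p _ G Gb _ _ _ _ L Z π hQ
  have hp : p.Prime := Fact.out
  refine ⟨?_, ?_⟩
  · intro y hy
    obtain ⟨a, ha⟩ := hQ.sur y
    have hn : orderOf a ≠ 0 := (orderOf_pos a).ne'
    obtain ⟨e, m, hm, hem⟩ := Nat.exists_eq_pow_mul_and_not_dvd hn p hp.ne_one
    have hcop : Nat.Coprime (p ^ e) (orderOf y) :=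
      Nat.Coprime.pow_left e ((Nat.Prime.coprime_iff_not_dvd hp).2 hy)
    obtain ⟨k, hk1, hk2⟩ := Nat.chineseRemainder hcop 0 1
    have hpk : p ^ e ∣ k := (Nat.modEq_zero_iff_dvd).1 hk1
    refine ⟨((a ^ k : L) : G), (a ^ k).2, ?_, ?_⟩
    · unfold PReg
      rw [Subgroup.orderOf_coe]
      intro hdvd
      apply hm
      refine dvd_trans hdvd ?_
      apply orderOf_dvd_of_pow_eq_one
      rw [← pow_mul]
      apply (orderOf_dvd_iff_pow_eq_one).1
      rw [hem]
      exact Nat.mul_dvd_mul_right hpk m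
    · have e1 : (⟨((a ^ k : L) : G), (a ^ k).2⟩ : L) = a ^ k := rfl
      rw [e1, map_pow, ha]
      have h0 : y ^ k = y ^ 1 := pow_eq_pow_iff_modEq.2 hk2
      rw [h0, pow_one]
  · intro g hg hr
    have h3 := JPR_three p G Gb L Z π hQ g hg hr
    refine ⟨?_, ?_, fun x _ z hz h => h3 x z hz h⟩
    · unfold PReg at hr ⊢
      intro hd
      apply hr
      have h1 : orderOf (π ⟨g, hg⟩) ∣ orderOf (⟨g, hg⟩ : L) := orderOf_map_dvd π _
      rw [Subgroup.orderOf_mk] at h1
      exact hd.trans h1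
    · ext x
      rw [mem_pre]
      unfold Cz
      rw [Subgroup.mem_inf]
      constructor
      · rintro ⟨hx, hxc⟩
        refine ⟨hx, ?_⟩
        rw [Subgroup.mem_centralizer_singleton_iff] at hxc ⊢
        have h1 : π (⟨x, hx⟩ * ⟨g, hg⟩ * (⟨x, hx⟩)⁻¹ * (⟨g, hg⟩)⁻¹) = 1 := by
          rw [map_mul, map_mul, map_mul, map_inv, map_inv, hxc]
          group
        have h2 := (hQ.ker _).1 h1
        have h4 : x * g * x⁻¹ * g⁻¹ ∈ Z := h2
        have h5 := h3 x _ h4 (by group)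
        have h6 : x * g * x⁻¹ = g := by
          rw [mul_inv_eq_one] at h5
          exact h5
        rw [mul_inv_eq_iff_eq_mul] at h6
        exact h6
      · rintro ⟨hx, hxc⟩
        refine ⟨hx, ?_⟩
        rw [Subgroup.mem_centralizer_singleton_iff] at hxc ⊢
        rw [← map_mul, ← map_mul]
        exact congrArg π (Subtype.ext hxc)

end Pool.Agent.FI3
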